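import Pool.Agent.Y120.H.FamR
import Pool.Agent.Y124.TD.Ap3

/-!
# Windows of rational numbers
-/

set_option autoImplicit false
set_option linter.unusedSectionVars false

namespace Pool.Agent.T44.GC

open Pool.Agent.Y120.GF Pool.Agent.Y120.GH

theorem window_conv (k E R : ℕ) : ∃ (c : ℝ) (N₀ : ℕ), 0 < c ∧ ∀ M : ℕ, N₀ ≤ M → ∀ x : Fin k → ℚ,
    (∀ l, ((x l).den : ℝ) ≤ (M : ℝ) ^ c) → (∀ l, (M : ℝ) ≤ x l ∧ (x l : ℝ) ≤ M + (M : ℝ) ^ c) →
    (∀ i j, i ≠ j → (R : ℚ) ≤ |x i - x j|) →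
    ∃ (H t a : ℕ) (g : Fin k → ℕ), 1 ≤ a ∧ (H + a + 2) ^ E ≤ t ∧ SepR (a * R) g ∧ (∀ l, g l ≤ H) ∧
      ∀ l, x l = ((t - g l : ℕ) : ℚ) / a := by
  obtain ⟨c, N₀, hc, hw⟩ := Pool.Agent.Y124.TD.window (2 * E) R
  refine ⟨c / (k + 1), max N₀ 1, by positivity, fun M hM' x hden hxw' hsep => ?_⟩
  have hM : N₀ ≤ M := (le_max_left _ _).trans hM'
  have hM1 : (1 : ℝ) ≤ M := by exact_mod_cast (le_max_right N₀ 1).trans hM'
  have hcc : c / (k + 1) ≤ c := div_le_self hc.le (by
    have : (0 : ℝ) ≤ k := by positivity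
    linarith)
  have hxw : ∀ l, (M : ℝ) ≤ x l ∧ (x l : ℝ) ≤ M + (M : ℝ) ^ c := fun l => ⟨(hxw' l).1, (hxw' l).2.trans (by
    have := Real.rpow_le_rpow_of_exponent_le hM1 hcc
    linarith)⟩
  obtain ⟨a, ha0, haM, hax⟩ : ∃ a : ℕ, 0 < a ∧ (a : ℝ) ≤ (M : ℝ) ^ c ∧ ∀ l, ∃ m : ℤ, x l = m / a := by
    refine ⟨∏ l, (x l).den, Finset.prod_pos fun l _ => (x l).pos, ?_, fun l => ?_⟩
    · push_cast
      calc ∏ l, ((x l).den : ℝ) ≤ ∏ _l : Fin k, (M : ℝ) ^ (c / (k + 1)) :=
            Finset.prod_le_prod (fun l _ => by positivity) fun l _ => hden l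
        _ = (M : ℝ) ^ (c / (k + 1) * k) := by
            rw [Finset.prod_const, Finset.card_univ, Fintype.card_fin, ← Real.rpow_natCast, ← Real.rpow_mul (by linarith)]
        _ ≤ _ := by
            refine Real.rpow_le_rpow_of_exponent_le hM1 ?_
            rw [div_mul_eq_mul_div, div_le_iff₀ (by positivity)]
            nlinarith
    · obtain ⟨e, he⟩ := Finset.dvd_prod_of_mem (fun l => (x l).den) (Finset.mem_univ l)
      have he0 : (e : ℚ) ≠ 0 := by
        rintro h0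
        have h1 : e = 0 := by exact_mod_cast h0
        rw [h1, mul_zero] at he
        exact (Finset.prod_pos (s := Finset.univ) fun l _ => (x l).pos).ne' he
      refine ⟨(x l).num * e, ?_⟩
      rw [he]
      push_cast
      rw [mul_div_mul_right _ _ he0, Rat.num_div_den]
  set F := ⌊(M : ℝ) ^ c⌋₊ with hF
  choose m hm using hax
  have haR : (0 : ℝ) < a := by exact_mod_cast ha0
  have haF : a ≤ F := Nat.le_floor haM
  have hmR : ∀ l, (m l : ℝ) = a * (x l : ℝ) := by
    intro l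
    have h1 : ((x l : ℚ) : ℝ) = (m l : ℝ) / a := by
      rw [hm l]
      push_cast
      rfl
    rw [h1]
    field_simp
  have hlow : ∀ l, ((a * M : ℕ) : ℤ) ≤ m l := by
    intro l
    have h1 : ((a * M : ℕ) : ℝ) ≤ (m l : ℝ) := by
      rw [hmR]
      push_cast
      exact mul_le_mul_of_nonneg_left (hxw l).1 haR.le
    exact_mod_cast h1
  have hupp : ∀ l, m l ≤ ((a * (M + F + 1) : ℕ) : ℤ) := by
    intro l
    have h1 : (m l : ℝ) ≤ ((a * (M + F + 1) : ℕ) : ℝ) := by
      rw [hmR]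
      push_cast
      refine mul_le_mul_of_nonneg_left ?_ haR.le
      have h2 := (hxw l).2
      have h3 := Nat.lt_floor_add_one ((M : ℝ) ^ c)
      rw [← hF] at h3
      linarith
    exact_mod_cast h1
  obtain ⟨mm, hmm⟩ : ∃ mm : Fin k → ℕ, ∀ l, (mm l : ℤ) = m l :=
    ⟨fun l => (m l).toNat, fun l => Int.toNat_of_nonneg (le_trans (Int.natCast_nonneg _) (hlow l))⟩
  have hlow' : ∀ l, a * M ≤ mm l := fun l => by
    have := hlow l
    rw [← hmm l] at this
    exact_mod_cast this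
  have hupp' : ∀ l, mm l ≤ a * (M + F + 1) := fun l => by
    have := hupp l
    rw [← hmm l] at this
    exact_mod_cast this
  have hval : ∀ l, ((mm l : ℕ) : ℝ) / a = (x l : ℝ) := by
    intro l
    have h1 : ((mm l : ℕ) : ℝ) = (m l : ℝ) := by exact_mod_cast hmm l
    rw [h1, hmR]
    field_simp
  set t : ℕ := a * (M + F + 1 + R) with htdef
  have ht1 : t = a * (M + F + 1) + a * R := by rw [htdef]; ring
  have ht2 : t = a * M + a * (F + 1 + R) := by rw [htdef]; ring
  have hmg : ∀ l, t - (t - mm l) = mm l := fun l => by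
    have := hupp' l
    omega
  have hEt : (a * (F + 1 + R) + a + 2) ^ E ≤ t := by
    have h1 : a * (F + 1 + R) + a + 2 ≤ (F + R + 2) ^ 2 := by
      have h2 : a * (F + 1 + R) ≤ F * (F + 1 + R) := Nat.mul_le_mul_right _ haF
      nlinarith
    have h2 : (F + R + 2) ^ (2 * E) ≤ M := hw M hM
    have h3 : M ≤ a * M := Nat.le_mul_of_pos_left _ ha0
    have h4 : (a * (F + 1 + R) + a + 2) ^ E ≤ (F + R + 2) ^ (2 * E) := by
      rw [pow_mul]
      exact Nat.pow_le_pow_left h1 _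
    omega
  refine ⟨a * (F + 1 + R), t, a, fun l => t - mm l, ha0, hEt, ⟨fun l => by
      have := hupp' l
      show a * R ≤ t - mm l
      omega, fun i j hij => by
      show t - mm i + a * R ≤ t - mm j ∨ t - mm j + a * R ≤ t - mm i
      have h5 := hupp' i
      have h6 := hupp' j
      have h7 : ((a * R : ℕ) : ℤ) ≤ |(mm i : ℤ) - mm j| := by
        have h8 : ((R : ℚ) : ℝ) ≤ ((|x i - x j| : ℚ) : ℝ) := by exact_mod_cast hsep i j hij
        have h9 : ((a * R : ℕ) : ℝ) ≤ |((mm i : ℕ) : ℝ) - ((mm j : ℕ) : ℝ)| := by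
          have e1 : ((mm i : ℕ) : ℝ) - ((mm j : ℕ) : ℝ) = a * ((x i : ℝ) - x j) := by
            rw [← hval i, ← hval j]
            field_simp
          rw [e1, abs_mul, abs_of_pos haR]
          push_cast at h8 ⊢
          exact mul_le_mul_of_nonneg_left h8 haR.le
        exact_mod_cast h9
      rcases le_total (mm i) (mm j) with h8 | h8
      · right
        have h9 : |(mm i : ℤ) - mm j| = (mm j : ℤ) - mm i := by
          rw [abs_sub_comm]
          exact abs_of_nonneg (by omega)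
        rw [h9] at h7
        omega
      · left
        have h9 : |(mm i : ℤ) - mm j| = (mm i : ℤ) - mm j := abs_of_nonneg (by omega)
        rw [h9] at h7
        omega⟩, (fun l => by
      have := hlow' l
      show t - mm l ≤ a * (F + 1 + R)
      omega), fun l => ?_⟩
  show x l = ((t - (t - mm l) : ℕ) : ℚ) / a
  rw [hmg]
  have h1 : ((x l : ℚ) : ℝ) = ((((mm l : ℕ) : ℚ) / a : ℚ) : ℝ) := by
    rw [← hval l]
    push_cast
    rfl
  exact_mod_cast h1

end Pool.Agent.T44.GC
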