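import Pool.Agent.T44.GC.Li

/-!
# Hyperelliptic families at rational points of both signs: the base
-/

set_option autoImplicit false
set_option linter.unusedSectionVars false

open Matrix Polynomial Filter Topology

namespace Pool.Agent.T44.GC

open Pool.Agent.Y118.HP Pool.Agent.Y118.HG Pool.Agent.Y37.GF Pool.Agent.Y124.TH Pool.Agent.T44.EF
open Pool.Agent.Y120.GF Pool.Agent.Y120.GH Pool.Agent.T44.GL Pool.Agent.T44.GA Pool.Agent.T44.GB
open Pool.Agent.Y113 (ps SDc ev)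
open Pool.Agent.T44.GF (Zm)

variable {n : ℕ}

theorem E_zero' (f : PowerSeries ℚ) : E f 0 = ((PowerSeries.coeff 0 f : ℚ) : ℝ) := by
  unfold Pool.Agent.Y37.GF.E
  rw [tsum_eq_single 0]
  · simp
  · intro m hm
    rw [zero_pow hm, mul_zero]

theorem AC_unit (hn : Even n) {a : Fin n → ℝ} (ha : StrictMono a) {m : Fin (n + 1)} {f : ℚ[X]} (h0 : InGap a m 0)
    (hf : f.map (algebraMap ℚ ℝ) = ∏ i, (X - C (a i))) (Δ : ZDat n a m f) : IsUnit (AC a m Δ.V).det := by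
  have hμ : (-4 * Real.pi * Complex.I : ℂ) ≠ 0 := by
    have h6 : (Real.pi : ℂ) ≠ 0 := by exact_mod_cast Real.pi_ne_zero
    exact mul_ne_zero (mul_ne_zero (by norm_num) h6) Complex.I_ne_zero
  exact (Pool.Agent.Y123.ST.tor_det hn hμ (AC_J hn ha h0 hf Δ.VJ)).1

theorem Z_zero (hn : Even n) {a : Fin n → ℝ} (ha : StrictMono a) {m : Fin (n + 1)} {f : ℚ[X]} (h0 : InGap a m 0)
    (hf : f.map (algebraMap ℚ ℝ) = ∏ i, (X - C (a i))) (Δ : ZDat n a m f) (i j : Fin n) :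
    PowerSeries.coeff 0 (Δ.Z i j) = if i = j then 1 else 0 := by
  have h1 := (CM_val hn ha h0 Δ).self_of_nhds.2
  set x := AC a m Δ.V with hx
  have hxd : IsUnit x.det := AC_unit hn ha h0 hf Δ
  have hUV : Δ.U.map (aeval (((0 : ℝ)) : ℂ)) * Δ.V.map (aeval (0 : ℂ)) = 1 := by
    rw [Complex.ofReal_zero, ← map_aevalC_mul, Δ.UV, map_aevalC_one]
  have h2 : x * (Ez Δ.Z 0).map (algebraMap ℝ ℂ) = x * 1 := by
    have h3 : x = CM a m 0 * Δ.V.map (aeval (0 : ℂ)) := rfl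
    calc x * (Ez Δ.Z 0).map (algebraMap ℝ ℂ) = x * (Ez Δ.Z 0).map (algebraMap ℝ ℂ) *
          (Δ.U.map (aeval (((0 : ℝ)) : ℂ)) * Δ.V.map (aeval (0 : ℂ))) := by rw [hUV, Matrix.mul_one]
      _ = (x * (Ez Δ.Z 0).map (algebraMap ℝ ℂ) * Δ.U.map (aeval (((0 : ℝ)) : ℂ))) * Δ.V.map (aeval (0 : ℂ)) := by
          simp only [Matrix.mul_assoc]
      _ = CM a m 0 * Δ.V.map (aeval (0 : ℂ)) := by rw [← h1]
      _ = x * 1 := by rw [Matrix.mul_one, ← h3]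
  have h3 : (Ez Δ.Z 0).map (algebraMap ℝ ℂ) = 1 := by
    have h4 : x⁻¹ * (x * (Ez Δ.Z 0).map (algebraMap ℝ ℂ)) = x⁻¹ * (x * 1) := by rw [h2]
    rwa [← Matrix.mul_assoc, ← Matrix.mul_assoc, Matrix.nonsing_inv_mul _ hxd, Matrix.one_mul, Matrix.one_mul] at h4
  have h4 := congrFun (congrFun h3 i) j
  rw [Matrix.map_apply, Ez_apply, E_zero', Matrix.one_apply] at h4
  have h5 : (((PowerSeries.coeff 0 (Δ.Z i j) : ℚ)) : ℂ) = if i = j then 1 else 0 := by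
    rw [← h4]
    simp
  split_ifs at h5 ⊢ with hij
  · exact_mod_cast h5
  · exact_mod_cast h5

/-- the integral system -/
theorem dat_of (hn : Even n) {a : Fin n → ℝ} (ha : StrictMono a) {m : Fin (n + 1)} {f : ℚ[X]} (h0 : InGap a m 0)
    (hf : f.map (algebraMap ℚ ℝ) = ∏ i, (X - C (a i))) (Δ : ZDat n a m f) (hn0 : 0 < n) :
    ∃ (T : ℤ[X]) (A : Fin n → Fin n → ℤ[X]), DatL T A 0 Δ.Z Δ.W := by
  obtain ⟨D, hD, P, hP⟩ := clear (fun o : Option (Fin n × Fin n) => o.elim f fun p => Δ.A p.1 p.2)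
  have hfne : f ≠ 0 := by
    rintro rfl
    rw [Polynomial.map_zero] at hf
    exact (Finset.prod_ne_zero_iff.2 fun i _ => X_sub_C_ne_zero (a i)) hf.symm
  have hPn := hP none
  have hPs : ∀ i j, (P (some (i, j))).map (Int.castRingHom ℚ) = Polynomial.C (D : ℚ) * Δ.A i j := fun i j => hP (some (i, j))
  have hDq : (D : ℚ) ≠ 0 := by exact_mod_cast hD
  refine ⟨P none, fun i j => Polynomial.X * P (some (i, j)), ?_, zero_pow hn0.ne', fun i j => ?_, Z_zero hn ha h0 hf Δ,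
    Δ.WZ, Δ.sdZ, Δ.sdW⟩
  · intro h1
    rw [h1, Polynomial.map_zero] at hPn
    exact mul_ne_zero (Polynomial.C_ne_zero.2 hDq) hfne hPn.symm
  · have h1 := Δ.ode i j
    have h2 : ∑ k, PowerSeries.C (((0 : Matrix (Fin n) (Fin n) ℤ) i k : ℤ) : ℚ) * Δ.Z k j = 0 := by simp
    rw [h2, add_zero]
    have h3 : ps (P none) = PowerSeries.C (D : ℚ) * (f : PowerSeries ℚ) := by
      unfold ps
      rw [hPn, Polynomial.coe_mul, Polynomial.coe_C]
      rfl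
    have h4 : ∀ k, ps (Polynomial.X * P (some (k, j))) = PowerSeries.X * (PowerSeries.C (D : ℚ) * (Δ.A k j : PowerSeries ℚ)) := by
      intro k
      unfold ps
      rw [Polynomial.map_mul, Polynomial.map_X, hPs, Polynomial.coe_mul, Polynomial.coe_mul, Polynomial.coe_X, Polynomial.coe_C]
    simp only [h3, h4]
    have h5 : ∑ k, Δ.Z i k * (PowerSeries.X * (PowerSeries.C (D : ℚ) * (Δ.A k j : PowerSeries ℚ))) =
        PowerSeries.X * PowerSeries.C (D : ℚ) * ∑ k, Δ.Z i k * (Δ.A k j : PowerSeries ℚ) := by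
      rw [Finset.mul_sum]
      exact Finset.sum_congr rfl fun k _ => by ring
    rw [h5, ← h1]
    ring

theorem Zg_zero (Z : Matrix (Fin n) (Fin n) (PowerSeries ℚ)) : Zg Z 0 = Z := by
  have h1 : Pool.Agent.Y113.sh 0 = PowerSeries.X := by
    ext m
    unfold Pool.Agent.Y113.sh
    rw [PowerSeries.coeff_mk, PowerSeries.coeff_X]
    rcases m with _ | _ | m <;> simp
  refine Matrix.ext fun i j => ?_
  rw [Zg_apply, h1, ← PowerSeries.map_algebraMap_eq_subst_X]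
  ext m
  simp

/-- the monomials are independent -/
theorem li_mono (hn : Even n) {a : Fin n → ℝ} (ha : StrictMono a) {m : Fin (n + 1)} {f : ℚ[X]} (h0 : InGap a m 0)
    (hf : f.map (algebraMap ℚ ℝ) = ∏ i, (X - C (a i))) (Δ : ZDat n a m f) {κ : Type} [Fintype κ]
    (b : κ → Fin n × Fin n → ℕ) (hb : ∀ x : κ → ℂ, (∀ g ∈ SpS ℂ n, ∑ k, x k * mnm g (b k) = 0) → x = 0) :
    LinearIndependent ℚ[X] (fun k => mnm Δ.Z (b k)) := by
  have ha0 : ∀ i, a i ≠ 0 := fun i => ne_zero_of_gap h0 i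
  have h1 := li_shift (N := 1) hn ha ha0 h0 hf Δ b hb (fun _ => 0) (fun l l' hll => absurd (Subsingleton.elim l l') hll)
  have h2 := h1.comp (fun (k : κ) (_ : Fin 1) => k) (fun x y hxy => congrFun hxy 0)
  have h3 : (fun e : Fin 1 → κ => ∏ l, mnm (Zg Δ.Z 0) (b (e l))) ∘ (fun (k : κ) (_ : Fin 1) => k) = fun k => mnm Δ.Z (b k) := by
    funext k
    show ∏ l : Fin 1, mnm (Zg Δ.Z 0) (b k) = _
    rw [Fin.prod_univ_one, Zg_zero]
  rw [← h3]
  exact h2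

theorem rn_rn (f : PowerSeries ℚ) : rn (rn f) = f := by
  ext m
  rw [rn_coeff, rn_coeff, ← mul_assoc, ← mul_pow]
  norm_num

/-- the same for the other sign -/
theorem li_flip {Z : Matrix (Fin n) (Fin n) (PowerSeries ℚ)} {κ : Type} [Fintype κ] {b : κ → Fin n × Fin n → ℕ}
    (h : LinearIndependent ℚ[X] (fun k => mnm Z (b k))) :
    LinearIndependent ℚ[X] (fun k => mnm (Matrix.of fun i j => rn (Z i j)) (b k)) := by
  rw [Fintype.linearIndependent_iff] at h ⊢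
  intro p hp
  have hmn : ∀ s, mnm (Matrix.of fun i j => rn (Z i j)) s = rn (mnm Z s) := by
    intro s
    unfold mnm
    rw [map_prod]
    exact Finset.prod_congr rfl fun x _ => by rw [map_pow, Matrix.of_apply]
  have hcoe : ∀ q : ℚ[X], ((q.comp (Polynomial.C (-1) * Polynomial.X) : ℚ[X]) : PowerSeries ℚ) = rn (q : PowerSeries ℚ) := by
    intro q
    ext m
    rw [rn_coeff, Polynomial.coeff_coe, Polynomial.coeff_coe, Polynomial.comp_C_mul_X_coeff, mul_comm]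
  have h1 := h (fun k => (p k).comp (Polynomial.C (-1) * Polynomial.X)) (by
    have h2 := congrArg rn hp
    rw [map_sum, map_zero] at h2
    rw [← h2]
    refine Finset.sum_congr rfl fun k _ => ?_
    rw [Pool.Agent.Y120.GF.psmul, Pool.Agent.Y120.GF.psmul, map_mul, hmn, rn_rn, hcoe])
  intro k
  have h2 := h1 k
  ext m
  have h3 := congrArg (fun q => Polynomial.coeff q m) h2
  simp only [Polynomial.comp_C_mul_X_coeff, Polynomial.coeff_zero] at h3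
  rw [Polynomial.coeff_zero]
  exact (mul_eq_zero.1 h3).resolve_right (pow_ne_zero _ (by norm_num))

theorem Zm_Zc (Z : Matrix (Fin n) (Fin n) (PowerSeries ℚ)) (x : ℝ) : Zm (fun i j => Z i j) x = Pool.Agent.Y124.TH.Zc Z (1 / x) := rfl

theorem Zm_Zc_neg (Z : Matrix (Fin n) (Fin n) (PowerSeries ℚ)) (x : ℝ) :
    Zm (fun i j => (Matrix.of fun i j => rn (Z i j)) i j) x = Pool.Agent.Y124.TH.Zc Z (-1 / x) := by
  ext i j
  show ((ev x (rn (Z i j)) : ℝ) : ℂ) = ((E (Z i j) (-1 / x) : ℝ) : ℂ)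
  congr 1
  unfold Pool.Agent.Y113.ev Pool.Agent.Y37.GF.E
  refine tsum_congr fun m => ?_
  rw [rn_coeff]
  push_cast
  rw [neg_div, neg_pow (1 / x)]
  ring

/-- **The base** -/
theorem base2A (hn : Even n) {a : Fin n → ℝ} (ha : StrictMono a) {m : Fin (n + 1)} {f : ℚ[X]} (hn0 : 0 < n)
    (h0 : InGap a m 0) (hf : f.map (algebraMap ℚ ℝ) = ∏ i, (X - C (a i))) (Δ : ZDat n a m f) :
    ∃ R : ℕ, ∀ k δ D : ℕ, ∃ E : ℕ, ∀ H t c : ℕ, 1 ≤ c → (H + c + 2) ^ E ≤ t → H < t ∧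
      ∀ g : Fin k → ℕ, SepR (c * R) g → (∀ l, g l ≤ H) → ∀ s : ℝ, (s = 1 ∨ s = -1) →
      (∀ l, InGap a m (s / (((t - g l : ℕ) : ℝ) / c)) ∧
        CM a m (s / (((t - g l : ℕ) : ℝ) / c)) = AC a m Δ.V * Pool.Agent.Y124.TH.Zc Δ.Z (s / (((t - g l : ℕ) : ℝ) / c)) *
          Δ.U.map (aeval (((s / (((t - g l : ℕ) : ℝ) / c) : ℝ)) : ℂ)) ∧
        Pool.Agent.Y124.TH.Zc Δ.Z (s / (((t - g l : ℕ) : ℝ) / c)) ∈ SpS ℂ n) ∧
      Gen (fun l => Pool.Agent.Y124.TH.Zc Δ.Z (s / (((t - g l : ℕ) : ℝ) / c))) δ D := by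
  classical
  obtain ⟨T, A, hdat⟩ := dat_of hn ha h0 hf Δ hn0
  obtain ⟨R₁, hR₁⟩ := li_valA hdat
  obtain ⟨R₂, hR₂⟩ := li_valA (flip hdat)
  refine ⟨max R₁ R₂, fun k δ D => ?_⟩
  obtain ⟨κ, _, k0, b, w, hb0, hbD, hw, hb⟩ := exists_basis1 hn (D * δ)
  have hli0 := li_mono hn ha h0 hf Δ b hb
  obtain ⟨E₁, hE₁⟩ := hR₁ (D * δ) k0 b hb0 hbD hli0 k
  obtain ⟨E₂, hE₂⟩ := hR₂ (D * δ) k0 b hb0 hbD (li_flip hli0) k
  obtain ⟨ρ, hρ, hZ'⟩ := SDc_SR' (fun p : Fin n × Fin n => Δ.Z p.1 p.2) fun p => Δ.sdZ p.1 p.2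
  have hZ : SRm ρ Δ.Z := fun i j => hZ' (i, j)
  obtain ⟨ε, hε, hval⟩ := Metric.eventually_nhds_iff.1 (CM_val hn ha h0 Δ)
  obtain ⟨c₂, hc₂⟩ := Pool.Agent.Y678.HG.exists_two_pow (1 / ρ + 1 / ε + 1)
  refine ⟨E₁ + E₂ + (c₂ + 1), fun H t c hc ht => ?_⟩
  have hc0 : (0 : ℝ) < c := by exact_mod_cast hc
  have hpos : 0 < H + c + 2 := by omega
  obtain ⟨hHt, h1⟩ := hE₁ H t c hc ((Nat.pow_le_pow_right hpos (by omega)).trans ht)
  obtain ⟨-, h2⟩ := hE₂ H t c hc ((Nat.pow_le_pow_right hpos (by omega)).trans ht)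
  refine ⟨hHt, fun g hg hgH s hs => ?_⟩
  have hg1 : SepR (c * R₁) g := by
    have h3 : c * R₁ ≤ c * max R₁ R₂ := Nat.mul_le_mul_left _ (le_max_left _ _)
    exact ⟨fun l => h3.trans (hg.1 l), fun l l' hll => by
      rcases hg.2 l l' hll with h4 | h4
      · left; omega
      · right; omega⟩
  have hg2 : SepR (c * R₂) g := by
    have h3 : c * R₂ ≤ c * max R₁ R₂ := Nat.mul_le_mul_left _ (le_max_right _ _)
    exact ⟨fun l => h3.trans (hg.1 l), fun l l' hll => by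
      rcases hg.2 l l' hll with h4 | h4
      · left; omega
      · right; omega⟩
  have hli1 := h1 g hg1 hgH
  have hli2 := h2 g hg2 hgH
  have h5 : ∀ l, c * 2 ^ c₂ ≤ t - g l := fun l => by
    have e1 : (H + c + 2) ^ (c₂ + 1) ≤ t := (Nat.pow_le_pow_right hpos (by omega)).trans ht
    have e2 : 2 ^ c₂ ≤ (H + c + 2) ^ c₂ := Nat.pow_le_pow_left (by omega) _
    have e3 : 2 ^ c₂ * (H + c + 2) ≤ t := by
      rw [pow_succ] at e1
      exact (Nat.mul_le_mul_right _ e2).trans e1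
    have e4 : 1 ≤ 2 ^ c₂ := Nat.one_le_two_pow
    have e5 := hgH l
    have e6 : 2 ^ c₂ * (H + c + 2) = 2 ^ c₂ * H + c * 2 ^ c₂ + 2 ^ c₂ * 2 := by ring
    have e7 : H ≤ 2 ^ c₂ * H := Nat.le_mul_of_pos_left _ e4
    omega
  have habs : |s| = 1 := by rcases hs with rfl | rfl <;> simp
  have hsm : ∀ l, |s / (((t - g l : ℕ) : ℝ) / c)| ≤ ρ ∧ |s / (((t - g l : ℕ) : ℝ) / c)| < ε := by
    intro l
    have h70 : (c : ℝ) * (2 : ℝ) ^ c₂ ≤ ((t - g l : ℕ) : ℝ) := by exact_mod_cast h5 l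
    have h7 : (2 : ℝ) ^ c₂ ≤ ((t - g l : ℕ) : ℝ) / c := by
      rw [le_div_iff₀ hc0]
      linarith
    have h8 : 1 / ρ + 1 / ε + 1 ≤ ((t - g l : ℕ) : ℝ) / c := hc₂.trans h7
    have h9 : 0 < 1 / ρ := by positivity
    have h10 : 0 < 1 / ε := by positivity
    have h11 : 0 < ((t - g l : ℕ) : ℝ) / c := by linarith
    rw [abs_div, habs, abs_of_pos h11]
    constructor
    · rw [div_le_iff₀ h11]
      have : ρ * (1 / ρ) ≤ ρ * (((t - g l : ℕ) : ℝ) / c) := mul_le_mul_of_nonneg_left (by linarith) hρ.le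
      rwa [mul_one_div_cancel hρ.ne'] at this
    · rw [div_lt_iff₀ h11]
      have : ε * (1 / ε) < ε * (((t - g l : ℕ) : ℝ) / c) := mul_lt_mul_of_pos_left (by linarith) hε
      rwa [mul_one_div_cancel hε.ne'] at this
  have hspc : ∀ l, Pool.Agent.Y124.TH.Zc Δ.Z (s / (((t - g l : ℕ) : ℝ) / c)) ∈ SpS ℂ n := fun l =>
    SpS_map (algebraMap ℝ ℂ) (Ez_mem Δ.zJ hρ hZ (hsm l).1)
  have hlic : LinearIndependent ℚ (fun e : Fin k → κ => ∏ i, mnm (Pool.Agent.Y124.TH.Zc Δ.Z (s / (((t - g i : ℕ) : ℝ) / c))) (b (e i))) := by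
    rcases hs with rfl | rfl
    · exact hli1
    · have h6 : ∀ l, Zm (fun i j => (Matrix.of fun i j => rn (Δ.Z i j)) i j) (((t - g l : ℕ) : ℝ) / c) =
          Pool.Agent.Y124.TH.Zc Δ.Z (-1 / (((t - g l : ℕ) : ℝ) / c)) := fun l => Zm_Zc_neg _ _
      simp only [h6] at hli2
      exact hli2
  refine ⟨fun l => ?_, gen_of_li hn hw hspc hlic le_rfl⟩
  have h3 := hval (y := s / (((t - g l : ℕ) : ℝ) / c)) (by
    rw [Real.dist_eq, sub_zero]
    exact (hsm l).2)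
  exact ⟨h3.1, h3.2, hspc l⟩

end Pool.Agent.T44.GC
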