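import Pool.Agent.T44.EX.Hyp
import Pool.Agent.T44.GC.Ba

/-!
# Hyperelliptic curves near a curve with few periods, at rational points
-/

set_option autoImplicit false
set_option linter.unusedSectionVars false

open Matrix Polynomial Filter Topology

namespace Pool.Agent.T44.GC

open Pool.Agent.Y120.GF Pool.Agent.Y120.GH
open Pool.Agent.T44.EX Pool.Agent.T44.EF Pool.Agent.T44.GF Pool.Agent.Y118.HP Pool.Agent.Y118.HG Pool.Agent.Y113 Pool.Agent.Y37.GF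
  Pool.Agent.Y124.TH

variable {n : ℕ}

theorem main_hypXA (hcd : S_CODIM2) (hGr : S_GROW) (hn : Even n) (hn4 : 4 ≤ n) (a : Fin n → ℝ) (f : ℚ[X])
    (hf : f.map (algebraMap ℚ ℝ) = ∏ i, (X - C (a i)))
    (m : Fin (n + 1)) (h0 : StrictMono (er a m 0)) {s : ℕ} (hs : s ≤ n - 2)
    (hcen : ∃ (θ : Fin s → ℂ) (lam : ℂ), lam ≠ 0 ∧
      ∀ i j, IsAlgebraic (IntermediateField.adjoin ℚ (Set.range θ)) (cper (er a m 0) i j / lam)) :
    ∃ R : ℕ, ∀ k D : ℕ, 0 < k → ∃ E : ℕ, ∀ H t c : ℕ, 1 ≤ c → (H + c + 2) ^ E ≤ t → H < t ∧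
      ∀ g : Fin k → ℕ, SepR (c * R) g → (∀ l, g l ≤ H) → ∀ σ : ℚ, (σ = 1 ∨ σ = -1) → ∀ z : Fin k → ℚ,
        (∀ l, z l = σ / (((t - g l : ℕ) : ℚ) / c)) →
        (∀ l, StrictMono (er a m (z l))) ∧
        ∀ K : Subfield ℂ, FiniteDimensional ℚ K → Module.finrank ℚ K ≤ D →
          Pool.Agent.Y123.ST.Om K (blockDiagonal fun l => Matrix.of (cper (er a m (z l))))
            (Pool.Agent.Y123.ST.TB fun l => (qm n (f * (X - C (z l)))).map (algebraMap ℚ ℂ)) := by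
  classical
  have ha : StrictMono a := (inGap_of_er h0).1
  have hg0 : InGap a m 0 := (inGap_of_er h0).2
  have hf0 : f.coeff 0 ≠ 0 := coeff_ne_of_gap hg0 hf
  obtain ⟨θ, lam, hlam, halg⟩ := hcen
  have Δ : ZDat n a m f := Classical.choice (exists_ZDat hn ha hg0 hf hf0)
  obtain ⟨R, hR⟩ := base2A hn ha (by omega) hg0 hf Δ
  refine ⟨R, fun k D hk => ?_⟩
  have hmapq : ∀ (M : Matrix (Fin n) (Fin n) ℚ[X]) (r : ℚ), M.map (aeval ((r : ℚ) : ℂ)) =
      (M.map (Polynomial.eval r)).map (algebraMap ℚ ℂ) := fun M r => map_q M r rfl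
  -- the central matrix
  set x : Matrix (Fin n) (Fin n) ℂ := AC a m Δ.V with hxdef
  have hμ : (-4 * Real.pi * Complex.I : ℂ) ≠ 0 := by
    have h6 : (Real.pi : ℂ) ≠ 0 := by exact_mod_cast Real.pi_ne_zero
    exact mul_ne_zero (mul_ne_zero (by norm_num) h6) Complex.I_ne_zero
  have hxJ : x * jm ℂ n * xᵀ = (-4 * Real.pi * Complex.I : ℂ) • jm ℂ n := AC_J hn ha hg0 hf Δ.VJ
  have hxd : IsUnit x.det := (Pool.Agent.Y123.ST.tor_det hn hμ hxJ).1
  have hxalg : ∀ i j, IsAlgebraic (IntermediateField.adjoin ℚ (Set.range θ)) (x i j / lam) := by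
    intro i j
    rw [← mem_acl, hxdef]
    unfold AC
    rw [Matrix.mul_apply, Finset.sum_div]
    refine (acl _).sum_mem fun b _ => ?_
    have h5 := hmapq Δ.V 0
    rw [Rat.cast_zero] at h5
    rw [h5, mul_div_right_comm]
    refine (acl _).mul_mem (mem_acl.2 (halg i b)) ?_
    exact SubfieldClass.ratCast_mem _ _
  obtain ⟨𝒱, C, h𝒱, hgr, hmem⟩ := exists_space hGr (inv_ne_zero hlam) (fun ij : Fin n × Fin n => x⁻¹ ij.1 ij.2)
    (fun ij => alg_inv hlam hxalg hxd ij.1 ij.2)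
  obtain ⟨δ, hδ⟩ := crit_few hcd hn hn4 hs C hk
  obtain ⟨E, hE⟩ := hR k δ D
  refine ⟨E, fun H t c₀ hc₀ ht => ?_⟩
  obtain ⟨hHt, h1⟩ := hE H t c₀ hc₀ ht
  refine ⟨hHt, fun g hg hgH σ hσ q hqdef => ?_⟩
  have hσ' : (σ : ℝ) = 1 ∨ (σ : ℝ) = -1 := by
    rcases hσ with rfl | rfl
    · left; norm_num
    · right; norm_num
  obtain ⟨h2, hgen⟩ := h1 g hg hgH σ hσ'
  have hqR : ∀ l, (σ : ℝ) / (((t - g l : ℕ) : ℝ) / c₀) = ((q l : ℚ) : ℝ) := fun l => by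
    rw [hqdef l]
    push_cast
    rfl
  simp only [hqR] at h2 hgen
  refine ⟨fun l => er_of_inGap ha (h2 l).1, fun K hK hKD => ?_⟩
  have hratK : ∀ (F : Subfield ℂ) (q : ℚ), (q : ℂ) ∈ F := fun F q => SubfieldClass.ratCast_mem F q
  -- rational points
  have hqC : ∀ l, ((((q l : ℚ) : ℝ)) : ℂ) = ((q l : ℚ) : ℂ) := fun l => Complex.ofReal_ratCast _
  -- the torsor
  set Q : Fin k → Matrix (Fin n) (Fin n) ℂ := fun l => (qm n (f * (X - Polynomial.C (q l)))).map (algebraMap ℚ ℂ) with hQ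
  set c : Fin k → Matrix (Fin n) (Fin n) ℂ := fun l => CM a m (q l) with hc
  have hctor : (c, (2 * Real.pi * Complex.I : ℂ)) ∈ Tor (fun l => (-1 / 2 : ℂ) • Q l) := by
    have h3 : (c, (2 * Real.pi * Complex.I : ℂ)) ∈ Tor (fun j => (-1 / 2 : ℂ) • (Qp n f).map (aeval ((q j : ℚ) : ℂ))) := by
      refine ⟨?_, fun j => ?_⟩
      · exact fun h => Pool.Agent.Y123.ST.transc_two_pi_I (by
          have h' : (2 * Real.pi * Complex.I : ℂ) = 0 := h
          rw [h']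
          exact isAlgebraic_zero)
      · exact CM_mem hn ha hf (t := q j) (h2 j).1
    rw [← TorF_eq (fun _ => f) q] at h3
    have h4 := h3.2
    exact ⟨h3.1, fun j => Pool.Agent.Y123.ST.rel_iff.1 (h4 j)⟩
  have hQK : ∀ j a b, ((-1 / 2 : ℂ) • Q j) a b ∈ K :=
    Pool.Agent.Y123.ST.half_mem (fun j a b => hratK K _)
  show Pool.Agent.Y123.ST.Om K (blockDiagonal c) (Pool.Agent.Y123.ST.TB Q)
  refine ⟨?_, ?_, ?_⟩
  · rw [Pool.Agent.Y123.ST.subT_iff, Pool.Agent.Y123.ST.TB_eq]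
    exact Pool.Agent.Y123.ST.tor_sub hn (by omega) hk hQK hctor
  · rw [Pool.Agent.Y123.ST.TB_eq]
    exact ⟨c, _, rfl, hctor⟩
  · intro T hT hcT
    rw [Pool.Agent.Y123.ST.TB_eq]
    rintro _ ⟨X', mu, rfl, hX'⟩
    have hVd0 : ∀ z : ℂ, IsUnit (Δ.V.map (aeval z)).det ∧ IsUnit (Δ.U.map (aeval z)).det := by
      intro z
      have h5 : Δ.U.map (aeval z) * Δ.V.map (aeval z) = 1 := by
        rw [← map_aevalC_mul, Δ.UV, map_aevalC_one]
      have h6 : Δ.V.map (aeval z) * Δ.U.map (aeval z) = 1 := by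
        rw [← map_aevalC_mul, Δ.VU, map_aevalC_one]
      exact ⟨Matrix.isUnit_det_of_left_inverse h5, Matrix.isUnit_det_of_left_inverse h6⟩
    refine hδ K hK D hKD x hxd 𝒱 (fun i j => hmem (i, j)) h𝒱 hgr (-4 * Real.pi * Complex.I) hμ hxJ
      (fun l => Zc Δ.Z (q l))
      (fun l => Δ.U.map (aeval ((((q l : ℚ) : ℝ)) : ℂ))) c (fun l => (h2 l).2.2) hgen ?_ (fun l => (hVd0 _).2)
      (fun l => (h2 l).2.1) T _ (2 * Real.pi * Complex.I) (Pool.Agent.Y123.ST.subT_iff.1 hT) hQK hctor hcT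
      Pool.Agent.Y123.ST.transc_two_pi_I (X', mu) hX'
    intro l i j
    rw [hqC, hmapq]
    exact hratK K _

end Pool.Agent.T44.GC
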