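import Pool.Agent.T44.GB.Ft
import Pool.Agent.T44.GA.Mn
import Pool.Agent.Y124.TH.Fin
import Pool.Agent.T44.EF.Hyp

/-!
# Hyperelliptic families at rational points: the linear independence of the values
-/

set_option autoImplicit false
set_option linter.unusedSectionVars false

open Matrix Polynomial Filter Topology

namespace Pool.Agent.T44.GC

open Pool.Agent.Y118.HP Pool.Agent.Y118.HG Pool.Agent.Y37.GF Pool.Agent.Y124.TH
open Pool.Agent.Y113 (ps SDc ev)
open Pool.Agent.Y120.GF Pool.Agent.Y120.GH Pool.Agent.Y124.TL Pool.Agent.T44.GL Pool.Agent.T44.GA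
open Pool.Agent.T44.GF (Zm)

variable {n : ℕ}

/-- clearing denominators -/
theorem clear {ι : Type} [Fintype ι] (p : ι → ℚ[X]) : ∃ D : ℤ, D ≠ 0 ∧ ∃ P : ι → ℤ[X], ∀ i,
    (P i).map (Int.castRingHom ℚ) = Polynomial.C (D : ℚ) * p i := by
  classical
  have h1 : ∀ i, ∃ (D : ℤ) (P : ℤ[X]), D ≠ 0 ∧ P.map (Int.castRingHom ℚ) = Polynomial.C (D : ℚ) * p i := by
    intro i
    obtain ⟨b, hb0, hb⟩ := IsLocalization.integerNormalization_spec (nonZeroDivisors ℤ) (p i)
    refine ⟨b, IsLocalization.integerNormalization (nonZeroDivisors ℤ) (p i), nonZeroDivisors.ne_zero hb0, ?_⟩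
    have h2 : (Int.castRingHom ℚ) = algebraMap ℤ ℚ := rfl
    rw [h2, hb]
    ext m
    simp
  choose D P hD hP using h1
  refine ⟨∏ i, D i, Finset.prod_ne_zero_iff.2 fun i _ => hD i, fun i => Polynomial.C (∏ j ∈ Finset.univ.erase i, D j) * P i,
    fun i => ?_⟩
  rw [Polynomial.map_mul, Polynomial.map_C, hP, ← mul_assoc, ← Polynomial.C_mul]
  congr 2
  rw [← Finset.mul_prod_erase Finset.univ D (Finset.mem_univ i), mul_comm, Int.cast_mul]
  rfl

/-- the index -/
def eg (n : ℕ) (a : Fin (n * n)) : Fin n × Fin n := ((Pool.Agent.Y119.HZ.ix n a).2, (Pool.Agent.Y119.HZ.ix n a).1)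

/-- the word of a monomial -/
def wd (D0 : ℕ) (s : Fin n × Fin n → ℕ) : Fin ((n * n + 1) * D0) → Option (Fin (n * n)) :=
  wP (id : Fin (n * n) → Fin (n * n)) (N := D0) fun a => ⟨min (s (eg n a)) D0, by omega⟩

theorem yw_wd {K : Type} [CommRing K] {D0 : ℕ} (X : Matrix (Fin n) (Fin n) K) (s : Fin n × Fin n → ℕ) (hs : dg s ≤ D0) :
    yw (fun a => X (eg n a).1 (eg n a).2) (wd D0 s) = mnm X s := by
  unfold wd
  rw [yw_wP]
  have h1 : ∀ p : Fin n × Fin n, s p ≤ D0 := fun p =>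
    (Finset.single_le_sum (f := s) (fun _ _ => Nat.zero_le _) (Finset.mem_univ p)).trans hs
  have h2 : ∀ a : Fin (n * n), X (eg n (id a)).1 (eg n (id a)).2 ^ (((⟨min (s (eg n a)) D0, by omega⟩ : Fin (D0 + 1)) : ℕ)) =
      X (eg n a).1 (eg n a).2 ^ s (eg n a) := by
    intro a
    have h3 : (((⟨min (s (eg n a)) D0, by omega⟩ : Fin (D0 + 1)) : ℕ)) = s (eg n a) := min_eq_left (h1 _)
    rw [h3]
    rfl
  rw [Finset.prod_congr rfl fun a _ => h2 a]
  exact Equiv.prod_comp ((Pool.Agent.Y119.HZ.ix n).trans (Equiv.prodComm _ _)) fun p => X p.1 p.2 ^ s p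

/-- **linear independence of the values at rational points** -/
theorem li_valA {T : Polynomial ℤ} {A : Fin n → Fin n → Polynomial ℤ} {N : Matrix (Fin n) (Fin n) ℤ}
    {Z W : Matrix (Fin n) (Fin n) (PowerSeries ℚ)} (h : DatL T A N Z W) :
    ∃ R : ℕ, ∀ (D0 : ℕ) {κ : Type} [Fintype κ] (k0 : κ) (b : κ → Fin n × Fin n → ℕ), b k0 = 0 → (∀ k, dg (b k) ≤ D0) →
      LinearIndependent ℚ[X] (fun k => mnm Z (b k)) → ∀ k : ℕ, ∃ E : ℕ, ∀ H t a : ℕ, 1 ≤ a → (H + a + 2) ^ E ≤ t →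
        H < t ∧ ∀ g : Fin k → ℕ, SepR (a * R) g → (∀ l, g l ≤ H) →
          LinearIndependent ℚ (fun e : Fin k → κ => ∏ i, mnm (Zm (fun i j => Z i j) (((t - g i : ℕ) : ℝ) / a)) (b (e i))) := by
  classical
  obtain ⟨R, hR⟩ := base_wordsA (gfL h)
  refine ⟨R, fun D0 κ _ k0 b hb0 hbD hli k => ?_⟩
  -- the words
  set w : κ → Fin ((n * n + 1) * D0) → Option (Fin (n * n)) := fun x => if x = k0 then fun _ => none else wd D0 (b x) with hw
  have hwv : ∀ {K : Type} [CommRing K] (X : Matrix (Fin n) (Fin n) K) (x : κ),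
      yw (fun a => X (eg n a).1 (eg n a).2) (w x) = mnm X (b x) := by
    intro K _ X x
    rw [hw]
    simp only
    split_ifs with hx
    · rw [hx, hb0]
      have e1 : yw (fun a => X (eg n a).1 (eg n a).2) (fun _ : Fin ((n * n + 1) * D0) => (none : Option (Fin (n * n)))) = 1 :=
        Finset.prod_eq_one fun j _ => rfl
      rw [e1]
      simp [mnm]
    · exact yw_wd X (b x) (hbD x)
  have hh' : (fun a => Z (eg n a).1 (eg n a).2) = hh Z := rfl
  have hwZ : ∀ x, yw (hh Z) (w x) = mnm Z (b x) := fun x => by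
    rw [← hh']
    exact hwv Z x
  have hinj : Function.Injective w := by
    intro x y hxy
    apply hli.injective
    simp only
    rw [← hwZ x, ← hwZ y, hxy]
  set B₀ : Finset (Fin ((n * n + 1) * D0) → Option (Fin (n * n))) := Finset.univ.image w with hB₀
  have hmem : ∀ x, w x ∈ B₀ := fun x => Finset.mem_image_of_mem _ (Finset.mem_univ x)
  have h0 : (fun _ => none) ∈ B₀ := by
    have e1 : w k0 = fun _ => none := by
      rw [hw]
      simp
    rw [← e1]
    exact hmem k0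
  let em : κ ≃ B₀ := Equiv.ofBijective (fun x => ⟨w x, hmem x⟩) ⟨fun x y hxy => hinj (Subtype.ext_iff.1 hxy), by
    rintro ⟨y, hy⟩
    obtain ⟨x, -, rfl⟩ := Finset.mem_image.1 hy
    exact ⟨x, rfl⟩⟩
  have hli' : LinearIndependent (Polynomial ℚ) (fun y : B₀ => yw (hh Z) y.1) := by
    refine (linearIndependent_equiv em).1 ?_
    have e2 : (fun y : B₀ => yw (hh Z) y.1) ∘ em = fun x => mnm Z (b x) := by
      funext x
      exact hwZ x
    rw [e2]
    exact hli
  obtain ⟨E, hE⟩ := hR ((n * n + 1) * D0) B₀ h0 hli' k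
  refine ⟨E, fun H t a ha ht => ?_⟩
  obtain ⟨hHt, h1⟩ := hE H t a ha ht
  refine ⟨hHt, fun g hg hgH => ?_⟩
  have h2 := h1 g hg hgH
  have h3 := h2.comp (fun e : Fin k → κ => fun l => (em (e l), (⟨0, by omega⟩ : Fin ((n * n + 1) * D0 + 1)))) (by
    intro e e' hee
    funext l
    have h4 := congrFun hee l
    exact em.injective (Prod.ext_iff.1 h4).1)
  have h4 : (fun e : Fin k → κ => ∏ i, mnm (Zm (fun i j => Z i j) (((t - g i : ℕ) : ℝ) / a)) (b (e i))) =
      (fun b : Fin k → B₀ × Fin ((n * n + 1) * D0 + 1) => ∏ l, (yw (hv (hh Z) (((t - g l : ℕ) : ℝ) / a)) (b l).1.1 *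
            (((Real.log (1 - g l / t) : ℝ) : ℂ)) ^ ((b l).2 : ℕ))) ∘ (fun e : Fin k → κ => fun l => (em (e l),
              (⟨0, by omega⟩ : Fin ((n * n + 1) * D0 + 1)))) := by
    funext e
    show _ = ∏ l, (yw (hv (hh Z) (((t - g l : ℕ) : ℝ) / a)) (w (e l)) * (((Real.log (1 - g l / t) : ℝ) : ℂ)) ^ 0)
    refine Finset.prod_congr rfl fun l _ => ?_
    rw [pow_zero, mul_one]
    exact (hwv (Zm (fun i j => Z i j) (((t - g l : ℕ) : ℝ) / a)) (e l)).symm
  rw [h4]
  exact h3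

end Pool.Agent.T44.GC
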